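import Pool.Agent.Q29.EqExp
import Pool.Agent.Q29.MzBd
import Pool.Agent.Results.MP_528be1_nt.SharpMeasures

/-!
# Joint uniform distribution of the multiples of multiple Clausen values and alternating multiple zeta values

Multiple polylogarithms at sixth roots of unity, for example multiple Clausen values (real or imaginary parts) and
alternating multiple zeta values, at the indices `(a_1 n + b_1, ..., a_r n + b_r)`: let `x_1(n), …, x_k(n)` be the real parts of
`k` such numbers with algebraic factors `θ_i`, which are independent in the sense of the starting hand-in `SharpMeasures`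
(for every pattern the numbers `Re (θ_i ∏ z_j)` with this pattern are linearly independent over the rationals). There is `D > 1` such
that for all `E` and `K` there is `κ > 0` such that for all large `n` and all `M` with `D ^ n ≤ M ≤ E ^ n` the multiples of the vector
`(x_1(n), …, x_k(n))` by the integers up to `M`, by their powers of degree up to `K` (even with real polynomials of smaller
degree added), and by the primes up to `M` in each residue class modulo `d ≤ M ^ κ` are jointly uniformly distributed modulo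
one in the cubes of side `1 / q`, `q ≤ M ^ κ`, with an error `M ^ (1 - κ)`.

The proof uses the measure of the starting hand-in `SharpMeasures`, an inverse theorem for the sums of Weyl and a form of
the estimate of Vinogradov for the sums over primes with a power saving (`H373R2/NB`, `W110/HV`).
-/

set_option autoImplicit false

namespace Pool.Agent.Results.MP_528be1_nt.JointMultiples

open Finset Polynomial
open Pool.Agent.Results.MP_528be1_nt.SharpMeasures (trunc li args pattern rootProd)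

/-- The points `y n ∈ ℝ ^ s`, `n ∈ S`, are uniformly distributed modulo one with error `E` in the cubes of side `1 / q`,
`q ≤ Q`. -/
def Equi {s : ℕ} (S : Finset ℕ) (y : ℕ → Fin s → ℝ) (Q E : ℝ) : Prop :=
  ∀ q : ℕ, 1 ≤ q → (q : ℝ) ≤ Q → ∀ ρ : Fin s → ℤ, (∀ j, 0 ≤ ρ j ∧ ρ j < q) →
    |((S.filter fun n => ∀ j, (ρ j : ℝ) / q ≤ Int.fract (y n j) ∧ Int.fract (y n j) < (ρ j + 1) / q).card : ℝ) -
      S.card / (q : ℝ) ^ s| ≤ E

/-- The multiples of the vector `x` are uniformly distributed modulo one at the scale `M`, with a power saving, along all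
polynomials of degree `k ≤ K` (the points `x n ^ k + R(n)`, `0 ≤ n < M`, `R` a vector of real polynomials of degree less
than `k`), and along the primes in all residue classes modulo `d ≤ M ^ κ` (the points `x p + β`, `p ≤ M` prime,
`p ≡ r (mod d)`). -/
def Joint (κ : ℝ) (K M : ℕ) {s : ℕ} (x : Fin s → ℝ) : Prop :=
  (∀ k : ℕ, 1 ≤ k → k ≤ K → ∀ R : Fin s → ℝ[X], (∀ j, (R j).degree < k) →
    Equi (range M) (fun n j => x j * (n : ℝ) ^ k + (R j).eval (n : ℝ)) ((M : ℝ) ^ κ) ((M : ℝ) ^ (1 - κ))) ∧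
  (∀ d r : ℕ, 1 ≤ d → (d : ℝ) ≤ (M : ℝ) ^ κ → ∀ β : Fin s → ℝ,
    Equi ((range (M + 1)).filter fun p => p.Prime ∧ p ≡ r [MOD d]) (fun p j => x j * p + β j) ((M : ℝ) ^ κ)
      ((M : ℝ) ^ (1 - κ)))

theorem joint_iff (κ : ℝ) (K M : ℕ) {s : ℕ} (x : Fin s → ℝ) : Joint κ K M x ↔ Pool.Agent.Q29.Eqd.Joint κ K M x :=
  Iff.rfl

theorem trunc_norm (l : List (ℕ × ℂ)) (hl : ∀ x ∈ l, ‖x.2‖ = 1) : ∀ m : ℕ, 1 ≤ m → ‖trunc l m‖ ≤ (m : ℝ) ^ l.length := by
  induction l with
  | nil => intro m _; rw [trunc]; simp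
  | cons x l ih =>
    intro m hm
    rw [trunc]
    have hm0 : (0 : ℝ) ≤ m := Nat.cast_nonneg _
    have hx := hl x (by simp)
    calc ‖∑ j ∈ Finset.Ico 1 m, x.2 ^ j / (j : ℂ) ^ x.1 * trunc l j‖ ≤
        ∑ j ∈ Finset.Ico 1 m, ‖x.2 ^ j / (j : ℂ) ^ x.1 * trunc l j‖ := norm_sum_le _ _
      _ ≤ ∑ j ∈ Finset.Ico 1 m, (m : ℝ) ^ l.length := by
          refine Finset.sum_le_sum fun j hj => ?_
          rw [Finset.mem_Ico] at hj
          have h1 : (1 : ℝ) ≤ j := by exact_mod_cast hj.1
          have h2 : (j : ℝ) ≤ m := by exact_mod_cast hj.2.le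
          rw [norm_mul, norm_div, norm_pow, norm_pow, hx, one_pow, Complex.norm_natCast]
          have h3 : 1 / (j : ℝ) ^ x.1 ≤ 1 := by
            rw [div_le_one (by positivity)]
            exact one_le_pow₀ h1
          calc 1 / (j : ℝ) ^ x.1 * ‖trunc l j‖ ≤ 1 * (j : ℝ) ^ l.length :=
                mul_le_mul h3 (ih (fun y hy => hl y (List.mem_cons_of_mem _ hy)) j hj.1) (norm_nonneg _) zero_le_one
            _ ≤ (m : ℝ) ^ l.length := by
                rw [one_mul]
                gcongr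
      _ = ((m - 1 : ℕ) : ℝ) * (m : ℝ) ^ l.length := by
          rw [Finset.sum_const, Nat.card_Ico, nsmul_eq_mul]
      _ ≤ (m : ℝ) * (m : ℝ) ^ l.length := by
          have h3 : ((m - 1 : ℕ) : ℝ) ≤ m := by exact_mod_cast Nat.sub_le m 1
          gcongr
      _ = (m : ℝ) ^ (x :: l).length := by
          rw [List.length_cons, pow_succ, mul_comm]

theorem li_norm (l : List (ℕ × ℂ)) (hl : ∀ x ∈ l, ‖x.2‖ = 1) (h : ∀ x ∈ l.head?, l.length + 1 ≤ x.1) : ‖li l‖ ≤ 2 := by
  cases l with
  | nil => rw [li]; simp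
  | cons x u =>
    have ha : u.length + 2 ≤ x.1 := by
      have h0 := h x (by simp)
      rw [List.length_cons] at h0
      omega
    rw [li]
    obtain ⟨h1, h2⟩ := Pool.Agent.Q29.Eqd.sum_inv_sq_succ
    have hx := hl x (by simp)
    refine (tsum_of_norm_bounded h1.hasSum fun k => ?_).trans h2
    have h4 : (1 : ℝ) ≤ ((k + 1 : ℕ) : ℝ) := by exact_mod_cast Nat.le_add_left 1 k
    rw [norm_mul, norm_div, norm_pow, norm_pow, hx, one_pow, Complex.norm_natCast, div_mul_eq_mul_div, one_mul,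
      div_le_div_iff₀ (by positivity) (by positivity), one_mul]
    calc ‖trunc u (k + 1)‖ * ((k + 1 : ℕ) : ℝ) ^ 2 ≤ ((k + 1 : ℕ) : ℝ) ^ u.length * ((k + 1 : ℕ) : ℝ) ^ 2 :=
          mul_le_mul_of_nonneg_right (trunc_norm u (fun y hy => hl y (List.mem_cons_of_mem _ hy)) (k + 1) (by omega))
            (by positivity)
      _ = ((k + 1 : ℕ) : ℝ) ^ (u.length + 2) := (pow_add _ _ _).symm
      _ ≤ ((k + 1 : ℕ) : ℝ) ^ x.1 := pow_le_pow_right₀ h4 ha

/-- **Joint uniform distribution of the multiples of multiple Clausen values and alternating multiple zeta values.** -/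
theorem result (k : ℕ) (hk : 1 ≤ k) (w : Fin (k + 1) → List ((ℕ+ × ℕ) × ℂ)) (θ : Fin (k + 1) → ℂ)
    (hθ : ∀ i, IsAlgebraic ℚ (θ i)) (hz : ∀ i, ∀ x ∈ w i, x.2 ^ 6 = 1) (hw0 : w 0 = []) (hθ0 : θ 0 = 1)
    (hind : ∀ v : List (ℕ+ × ℕ), LinearIndependent ℚ
      fun i : {i : Fin (k + 1) // pattern (w i) = v} => (θ i * rootProd (w i)).re) :
    ∃ D : ℝ, 1 < D ∧ ∀ (E : ℝ) (K : ℕ), ∃ κ : ℝ, 0 < κ ∧ ∃ n0 : ℕ, ∀ n : ℕ, n0 ≤ n → ∀ M : ℕ,
      D ^ n ≤ (M : ℝ) → (M : ℝ) ≤ E ^ n → Joint κ K M (fun i : Fin k => (θ i.succ * li (args n (w i.succ))).re) := by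
  obtain ⟨X, hXE⟩ : ∃ X : ℝ, X = 1 + 2 * ∑ j, ‖θ j‖ := ⟨_, rfl⟩
  have hS0 : 0 ≤ ∑ j, ‖θ j‖ := Finset.sum_nonneg fun j _ => norm_nonneg _
  have hX : 1 ≤ X := by rw [hXE]; linarith
  have hθX : ∀ j, ‖θ j‖ * 2 ≤ X := fun j => by
    have := Finset.single_le_sum (f := fun j => ‖θ j‖) (fun j _ => norm_nonneg _) (mem_univ j)
    rw [hXE]
    linarith
  obtain ⟨D₀, hD₀, hmain⟩ := Pool.Agent.Results.MP_528be1_nt.SharpMeasures.result k w θ hθ hz (by rw [hw0]; simp) hind
  obtain ⟨G, hG⟩ : ∃ G : ℝ, G = max D₀ (2 * X) := ⟨_, rfl⟩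
  have hG1 : 1 < G := by rw [hG]; exact lt_of_lt_of_le hD₀ (le_max_left _ _)
  have hG0 : 0 < G := by linarith
  obtain ⟨n0, hn0⟩ := hmain G 2 (by norm_num)
  obtain ⟨B, hBE⟩ : ∃ B : ℝ, B = G ^ k * 2 := ⟨_, rfl⟩
  have hB : 1 < B := by
    rw [hBE]
    have := one_le_pow₀ hG1.le (n := k)
    linarith
  refine ⟨B ^ 2, one_lt_pow₀ hB (by norm_num), fun E K => ?_⟩
  obtain ⟨κ, hκ, n₁, hjoint⟩ := Pool.Agent.Q29.Eqd.joint_exp k hk K 2 B X E (by norm_num) hB hX
  refine ⟨κ, hκ, n0 + n₁ + (∑ i, (w i).length) + 2, fun n hn M hDM hME => ?_⟩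
  rw [joint_iff]
  refine hjoint n (by omega) _ (fun i => ?_) (fun v a hv hvA haA => ?_) M hDM hME
  · have h1 : ‖li (args n (w i.succ))‖ ≤ 2 := by
      refine li_norm _ (fun x hx => ?_) (fun x hx => ?_)
      · rw [args, List.mem_map] at hx
        obtain ⟨y, hy, rfl⟩ := hx
        exact Complex.norm_eq_one_of_pow_eq_one (hz _ y hy) (by norm_num)
      · rw [args] at hx ⊢
        rw [List.length_map]
        rw [List.head?_map, Option.mem_map] at hx
        obtain ⟨y, hy, rfl⟩ := hx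
        have h2 : (w i.succ).length ≤ ∑ i, (w i).length :=
          Finset.single_le_sum (f := fun i => (w i).length) (fun _ _ => Nat.zero_le _) (mem_univ i.succ)
        have h3 : 1 * n ≤ (y.1.1 : ℕ) * n := Nat.mul_le_mul_right n y.1.1.2
        show (w i.succ).length + 1 ≤ (y.1.1 : ℕ) * n + y.1.2
        omega
    calc |(θ i.succ * li (args n (w i.succ))).re| ≤ ‖θ i.succ * li (args n (w i.succ))‖ := Complex.abs_re_le_norm _
      _ ≤ ‖θ i.succ‖ * 2 := by
          rw [norm_mul]
          exact mul_le_mul_of_nonneg_left h1 (norm_nonneg _)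
      _ ≤ X := hθX _
      _ ≤ X ^ n := le_self_pow₀ hX (by omega)
  · have h1 := hn0 n (by omega) (G ^ n) (pow_le_pow_left₀ (by linarith) (by rw [hG]; exact le_max_left _ _) n) le_rfl
      (Fin.cons (-a) v) (fun h0 => hv (by
        funext i
        have := congrFun h0 i.succ
        rw [Fin.cons_succ] at this
        exact this)) (fun i => by
        refine Fin.cases ?_ (fun i => ?_) i
        · rw [Fin.cons_zero]
          push_cast
          rw [abs_neg]
          exact haA.trans (pow_le_pow_left₀ (by linarith) (by rw [hG]; exact le_max_right _ _) n)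
        · rw [Fin.cons_succ]
          exact (hvA i).trans (pow_le_pow_left₀ (by norm_num) (by
            rw [hG]
            exact le_trans (by linarith) (le_max_right _ _)) n))
    rw [Fin.sum_univ_succ] at h1
    simp only [Fin.cons_zero, Fin.cons_succ] at h1
    have h2 : (θ 0 * li (args n (w 0))).re = 1 := by
      rw [hθ0, hw0, args, List.map_nil, li]
      simp
    rw [h2] at h1
    have h3 : 1 / ((G ^ n) ^ k * 2 ^ n) = (B ^ n)⁻¹ := by
      rw [hBE, mul_pow, one_div, ← pow_mul, ← pow_mul, mul_comm n k]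
    rw [h3] at h1
    refine lt_of_lt_of_eq h1 ?_
    congr 1
    push_cast
    ring

end Pool.Agent.Results.MP_528be1_nt.JointMultiples
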