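import Pool.Agent.Q263.ZO.Level

/-!
# Multiple Clausen values and alternating multiple zeta values: one weight decides the smaller ones

Let `Z 2 w`, `Z 6 w`, `C w` be the spaces `Z_w(2)`, `Z_w(6)` and `C_w` of the problem, `F_k` the
Fibonacci numbers. We use the known theorems of Deligne and Goncharov, and Deligne, on the motivic
versions of these spaces (`Model`): they are the images of the homogeneous parts of subalgebras of an
integral domain `H`, of dimensions `F_{w+1}` (`Z 2 w` and `C w`) and at most `F_{2w+2}` (`Z 6 w`). Let `X w`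
be `Z 2 w`, or let it be `C w`. Theorem:

1. If `dim X n ≠ F_{n+1}` for one `n ≥ 1`, then `dim X N ≤ F_{N+1} - F_{N-n+1}` for all `N ≥ n`.
2. If `dim X N = F_{N+1}` for one `N`, then `dim X n = F_{n+1}` for all `1 ≤ n ≤ N`; more precisely
   `dim X N > F_{N+1} - F_{N-n+1}` is sufficient for weight `n`.
3. `dim X n = F_{n+1}` for all `n ≥ 1` if and only if this is true for infinitely many `n`, and if and
   only if `limsup dim X N / F_{N+1} = 1`.
4. If `dim Z 6 N = F_{2N+2}` for one `N`, then `dim Z 2 n = dim C n = F_{n+1}` for all `1 ≤ n ≤ N`. So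
   Q1 holds if the dimensions of the spaces of level `6` are as large as possible in infinitely many
   weights.
-/

set_option autoImplicit false

open Module Filter

namespace Pool.Agent.Results.MP_528be1_nt.OneWeightSuffices

open Pool.Agent.Q263.ZO.Lev

/-- question Q1 -/
def Conjecture : Prop :=
  ∀ w, 1 ≤ w → finrank ℚ (C w) = Nat.fib (w + 1) ∧ finrank ℚ (Z 2 w) = Nat.fib (w + 1)

theorem result (M : Model) :
    (∀ X : ℕ → Submodule ℚ ℂ, X = Z 2 ∨ X = C →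
      (∀ n N, 1 ≤ n → n ≤ N → finrank ℚ (X n) ≠ Nat.fib (n + 1) →
        finrank ℚ (X N) + Nat.fib (N - n + 1) ≤ Nat.fib (N + 1)) ∧
      (∀ N, finrank ℚ (X N) = Nat.fib (N + 1) → ∀ n, 1 ≤ n → n ≤ N →
        finrank ℚ (X n) = Nat.fib (n + 1)) ∧
      ((∀ n, 1 ≤ n → finrank ℚ (X n) = Nat.fib (n + 1)) ↔
        ∃ᶠ N in atTop, finrank ℚ (X N) = Nat.fib (N + 1)) ∧
      ((∀ n, 1 ≤ n → finrank ℚ (X n) = Nat.fib (n + 1)) ↔
        ∀ ε : ℝ, 0 < ε → ∃ᶠ N in atTop, (1 - ε) * Nat.fib (N + 1) < finrank ℚ (X N)) ∧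
      (∀ n N, 1 ≤ n → n ≤ N → Nat.fib (N + 1) < finrank ℚ (X N) + Nat.fib (N - n + 1) →
        finrank ℚ (X n) = Nat.fib (n + 1))) ∧
    (Conjecture ↔ (∃ᶠ N in atTop, finrank ℚ (C N) = Nat.fib (N + 1)) ∧
      ∃ᶠ N in atTop, finrank ℚ (Z 2 N) = Nat.fib (N + 1)) ∧
    (∀ N, finrank ℚ (Z 6 N) = Nat.fib (2 * N + 2) → ∀ n, 1 ≤ n → n ≤ N →
      finrank ℚ (Z 2 n) = Nat.fib (n + 1) ∧ finrank ℚ (C n) = Nat.fib (n + 1)) ∧
    ((∃ᶠ N in atTop, finrank ℚ (Z 6 N) = Nat.fib (2 * N + 2)) → Conjecture) := by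
  have h2 := laws (fun w => finrank ℚ (Z 2 w)) M.step2.2
  have hC := laws (fun w => finrank ℚ (C w)) M.stepC.2
  refine ⟨?_, ?_, M.of_six, ?_⟩
  · rintro X (rfl | rfl)
    · exact ⟨M.step2.2, h2.1, h2.2.1, h2.2.2.1, h2.2.2.2⟩
    · exact ⟨M.stepC.2, hC.1, hC.2.1, hC.2.2.1, hC.2.2.2⟩
  · constructor
    · intro h
      exact ⟨hC.2.1.1 fun n hn => (h n hn).1, h2.2.1.1 fun n hn => (h n hn).2⟩
    · rintro ⟨ha, hb⟩ n hn
      exact ⟨hC.2.1.2 ha n hn, h2.2.1.2 hb n hn⟩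
  · intro h n hn
    obtain ⟨N, hN, hN2⟩ := (frequently_atTop.1 h) n
    have := M.of_six N hN2 n hn hN
    exact ⟨this.2, this.1⟩

end Pool.Agent.Results.MP_528be1_nt.OneWeightSuffices
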