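import Pool.Agent.Q47.AB.Exp
import Pool.Agent.Q29.MzBd
import Pool.Agent.Results.MP_528be1_nt.SharpMeasures

/-!
# Multiple Clausen values and alternating multiple zeta values: multiples by the elements of two arbitrary dense sets

Multiple polylogarithms at sixth roots of unity, for example multiple Clausen values (real or imaginary parts) and
alternating multiple zeta values, at the indices `(a_1 n + b_1, ..., a_r n + b_r)`: let `x_1(n), …, x_k(n)` be the real parts of
`k` such numbers with algebraic factors `θ_i`, which are independent in the sense of the starting hand-in `SharpMeasures`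
(for every pattern the numbers `Re (θ_i ∏ z_j)` with this pattern are linearly independent over the rationals).
There is `D > 1` such that for all `E`, `K` and `η > 0` there is `κ > 0` such that for all large `n` and all `M` with
`D ^ n ≤ M ≤ E ^ n` every combination `x` of these numbers with integer coefficients at most `M ^ κ`, not all zero, has the
following property: for ALL dense sets `A` of integers below `M` and `B` of integers below `H`, `H ≥ M ^ η`, all real numbers
`y_a` and real polynomials `R_c` of degree less than `k ≤ K`, the numbers `b x a ^ k c + R_c(a) + y_a`, `(a, c) ∈ A × B`, are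
uniformly distributed modulo one with a power saving.

The proof uses the measure of the starting hand-in `SharpMeasures`, a bilinear estimate and an inverse theorem for the sums
of Weyl (`Q47/DG/EqdK`, `Q47/AB/Exp`, `H373R2/NB`).
-/

set_option autoImplicit false

namespace Pool.Agent.Results.MP_528be1_nt.PairsFromDenseSets

open Finset Polynomial
open Pool.Agent.Results.MP_528be1_nt.SharpMeasures (trunc li args pattern rootProd)

/-- Polynomials over two dense sets are uniformly distributed at the scale `M`, with a power saving: for all integers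
`b ≠ 0` with `|b| ≤ M ^ κ`, all degrees `1 ≤ k ≤ K`, all integers `H ≥ M ^ η`, ALL sets `A` of integers in `[0, M)` and `B` of
integers in `[0, H)` with `|A| |B| ≥ M ^ (1 - κ) H`, all real numbers `y_a`, all real polynomials `R_c` of degree less than
`k` and all `0 ≤ u ≤ v ≤ 1`, the number of the pairs `(a, c) ∈ A × B` with the fractional part of
`b x a ^ k c + R_c(a) + y_a` in `[u, v)` is `(v - u) |A| |B|`, up to `|A| |B| M ^ (-κ)`. -/
def PGood (K : ℕ) (η κ : ℝ) (M : ℕ) (x : ℝ) : Prop :=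
  ∀ b : ℤ, b ≠ 0 → |(b : ℝ)| ≤ (M : ℝ) ^ κ → ∀ k : ℕ, 1 ≤ k → k ≤ K → ∀ H : ℕ, (M : ℝ) ^ η ≤ H →
    ∀ A B : Finset ℕ, (∀ a ∈ A, a < M) → (∀ c ∈ B, c < H) → (M : ℝ) ^ (1 - κ) * H ≤ #A * #B →
    ∀ (y : ℕ → ℝ) (R : ℕ → ℝ[X]), (∀ c, (R c).degree < k) → ∀ u v : ℝ, 0 ≤ u → u ≤ v → v ≤ 1 →
      |(#{i ∈ A ×ˢ B | u ≤ Int.fract (b * x * i.1 ^ k * i.2 + (R i.2).eval (i.1 : ℝ) + y i.1) ∧
          Int.fract (b * x * i.1 ^ k * i.2 + (R i.2).eval (i.1 : ℝ) + y i.1) < v} : ℝ) -
        (v - u) * (#A * #B)| ≤ #A * #B * (M : ℝ) ^ (-κ)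

theorem pgood_iff (K : ℕ) (η κ : ℝ) (M : ℕ) (x : ℝ) : PGood K η κ M x ↔ Pool.Agent.Q47.DG.PGood K η κ M x := Iff.rfl

/-- Every combination of the coordinates of `x` with integer coefficients at most `M ^ κ`, not all zero, has the property
`PGood`. -/
def Pairs (K : ℕ) (η κ : ℝ) (M : ℕ) {s : ℕ} (x : Fin s → ℝ) : Prop :=
  ∀ l : Fin s → ℤ, l ≠ 0 → (∀ i, |(l i : ℝ)| ≤ (M : ℝ) ^ κ) → PGood K η κ M (∑ i, (l i : ℝ) * x i)

theorem trunc_norm (l : List (ℕ × ℂ)) (hl : ∀ x ∈ l, ‖x.2‖ = 1) : ∀ m : ℕ, 1 ≤ m → ‖trunc l m‖ ≤ (m : ℝ) ^ l.length := by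
  induction l with
  | nil => intro m _; rw [trunc]; simp
  | cons x l ih =>
    intro m hm
    rw [trunc]
    have hm0 : (0 : ℝ) ≤ m := Nat.cast_nonneg _
    have hx := hl x (by simp)
    calc ‖∑ j ∈ Finset.Ico 1 m, x.2 ^ j / (j : ℂ) ^ x.1 * trunc l j‖ ≤
        ∑ j ∈ Finset.Ico 1 m, ‖x.2 ^ j / (j : ℂ) ^ x.1 * trunc l j‖ := norm_sum_le _ _
      _ ≤ ∑ j ∈ Finset.Ico 1 m, (m : ℝ) ^ l.length := by
          refine Finset.sum_le_sum fun j hj => ?_
          rw [Finset.mem_Ico] at hj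
          have h1 : (1 : ℝ) ≤ j := by exact_mod_cast hj.1
          have h2 : (j : ℝ) ≤ m := by exact_mod_cast hj.2.le
          rw [norm_mul, norm_div, norm_pow, norm_pow, hx, one_pow, Complex.norm_natCast]
          have h3 : 1 / (j : ℝ) ^ x.1 ≤ 1 := by
            rw [div_le_one (by positivity)]
            exact one_le_pow₀ h1
          calc 1 / (j : ℝ) ^ x.1 * ‖trunc l j‖ ≤ 1 * (j : ℝ) ^ l.length :=
                mul_le_mul h3 (ih (fun y hy => hl y (List.mem_cons_of_mem _ hy)) j hj.1) (norm_nonneg _) zero_le_one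
            _ ≤ (m : ℝ) ^ l.length := by
                rw [one_mul]
                gcongr
      _ = ((m - 1 : ℕ) : ℝ) * (m : ℝ) ^ l.length := by
          rw [Finset.sum_const, Nat.card_Ico, nsmul_eq_mul]
      _ ≤ (m : ℝ) * (m : ℝ) ^ l.length := by
          have h3 : ((m - 1 : ℕ) : ℝ) ≤ m := by exact_mod_cast Nat.sub_le m 1
          gcongr
      _ = (m : ℝ) ^ (x :: l).length := by
          rw [List.length_cons, pow_succ, mul_comm]

theorem li_norm (l : List (ℕ × ℂ)) (hl : ∀ x ∈ l, ‖x.2‖ = 1) (h : ∀ x ∈ l.head?, l.length + 1 ≤ x.1) : ‖li l‖ ≤ 2 := by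
  cases l with
  | nil => rw [li]; simp
  | cons x u =>
    have ha : u.length + 2 ≤ x.1 := by
      have h0 := h x (by simp)
      rw [List.length_cons] at h0
      omega
    rw [li]
    obtain ⟨h1, h2⟩ := Pool.Agent.Q29.Eqd.sum_inv_sq_succ
    have hx := hl x (by simp)
    refine (tsum_of_norm_bounded h1.hasSum fun k => ?_).trans h2
    have h4 : (1 : ℝ) ≤ ((k + 1 : ℕ) : ℝ) := by exact_mod_cast Nat.le_add_left 1 k
    rw [norm_mul, norm_div, norm_pow, norm_pow, hx, one_pow, Complex.norm_natCast, div_mul_eq_mul_div, one_mul,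
      div_le_div_iff₀ (by positivity) (by positivity), one_mul]
    calc ‖trunc u (k + 1)‖ * ((k + 1 : ℕ) : ℝ) ^ 2 ≤ ((k + 1 : ℕ) : ℝ) ^ u.length * ((k + 1 : ℕ) : ℝ) ^ 2 :=
          mul_le_mul_of_nonneg_right (trunc_norm u (fun y hy => hl y (List.mem_cons_of_mem _ hy)) (k + 1) (by omega))
            (by positivity)
      _ = ((k + 1 : ℕ) : ℝ) ^ (u.length + 2) := (pow_add _ _ _).symm
      _ ≤ ((k + 1 : ℕ) : ℝ) ^ x.1 := pow_le_pow_right₀ h4 ha

/-- **Multiple Clausen values and alternating multiple zeta values: every small combination has equidistributed multiples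
over two arbitrary dense sets.** -/
theorem result (k : ℕ) (w : Fin (k + 1) → List ((ℕ+ × ℕ) × ℂ)) (θ : Fin (k + 1) → ℂ)
    (hθ : ∀ i, IsAlgebraic ℚ (θ i)) (hz : ∀ i, ∀ x ∈ w i, x.2 ^ 6 = 1) (hw0 : w 0 = []) (hθ0 : θ 0 = 1)
    (hind : ∀ v : List (ℕ+ × ℕ), LinearIndependent ℚ
      fun i : {i : Fin (k + 1) // pattern (w i) = v} => (θ i * rootProd (w i)).re) :
    ∃ D : ℝ, 1 < D ∧ ∀ (E : ℝ) (K : ℕ) (η : ℝ), 0 < η → ∃ κ : ℝ, 0 < κ ∧ ∃ n0 : ℕ, ∀ n : ℕ, n0 ≤ n → ∀ M : ℕ,
      D ^ n ≤ (M : ℝ) → (M : ℝ) ≤ E ^ n → Pairs K η κ M (fun i : Fin k => (θ i.succ * li (args n (w i.succ))).re) := by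
  obtain ⟨X, hXE⟩ : ∃ X : ℝ, X = 1 + 2 * ∑ j, ‖θ j‖ := ⟨_, rfl⟩
  have hS0 : 0 ≤ ∑ j, ‖θ j‖ := Finset.sum_nonneg fun j _ => norm_nonneg _
  have hX : 1 ≤ X := by rw [hXE]; linarith
  have hθX : ∀ j, ‖θ j‖ * 2 ≤ X := fun j => by
    have := Finset.single_le_sum (f := fun j => ‖θ j‖) (fun j _ => norm_nonneg _) (mem_univ j)
    rw [hXE]
    linarith
  obtain ⟨D₀, hD₀, hmain⟩ := Pool.Agent.Results.MP_528be1_nt.SharpMeasures.result k w θ hθ hz (by rw [hw0]; simp) hind
  obtain ⟨G, hG⟩ : ∃ G : ℝ, G = max D₀ (2 * X) := ⟨_, rfl⟩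
  have hG1 : 1 < G := by rw [hG]; exact lt_of_lt_of_le hD₀ (le_max_left _ _)
  have hG0 : 0 < G := by linarith
  obtain ⟨n0, hn0⟩ := hmain G 2 (by norm_num)
  obtain ⟨B, hBE⟩ : ∃ B : ℝ, B = G ^ k * 2 := ⟨_, rfl⟩
  have hB : 1 < B := by
    rw [hBE]
    have := one_le_pow₀ hG1.le (n := k)
    linarith
  refine ⟨B ^ 2, one_lt_pow₀ hB (by norm_num), fun E K η hη => ?_⟩
  obtain ⟨κ, hκ, n₁, hjoint⟩ := Pool.Agent.Q47.AB.comb_exp (PGood K η)
    (Pool.Agent.Q47.DG.Abs.engine_prod K η hη) k 2 B X E (by norm_num) hB hX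
  refine ⟨κ, hκ, n0 + n₁ + (∑ i, (w i).length) + 2, fun n hn M hDM hME => ?_⟩
  intro lc hlc0 hlc
  refine hjoint n (by omega) _ (fun i => ?_) (fun v a hv hvA haA => ?_) M hDM hME lc hlc0 hlc
  · have h1 : ‖li (args n (w i.succ))‖ ≤ 2 := by
      refine li_norm _ (fun x hx => ?_) (fun x hx => ?_)
      · rw [args, List.mem_map] at hx
        obtain ⟨y, hy, rfl⟩ := hx
        exact Complex.norm_eq_one_of_pow_eq_one (hz _ y hy) (by norm_num)
      · rw [args] at hx ⊢
        rw [List.length_map]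
        rw [List.head?_map, Option.mem_map] at hx
        obtain ⟨y, hy, rfl⟩ := hx
        have h2 : (w i.succ).length ≤ ∑ i, (w i).length :=
          Finset.single_le_sum (f := fun i => (w i).length) (fun _ _ => Nat.zero_le _) (mem_univ i.succ)
        have h3 : 1 * n ≤ (y.1.1 : ℕ) * n := Nat.mul_le_mul_right n y.1.1.2
        show (w i.succ).length + 1 ≤ (y.1.1 : ℕ) * n + y.1.2
        omega
    calc |(θ i.succ * li (args n (w i.succ))).re| ≤ ‖θ i.succ * li (args n (w i.succ))‖ := Complex.abs_re_le_norm _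
      _ ≤ ‖θ i.succ‖ * 2 := by
          rw [norm_mul]
          exact mul_le_mul_of_nonneg_left h1 (norm_nonneg _)
      _ ≤ X := hθX _
      _ ≤ X ^ n := le_self_pow₀ hX (by omega)
  · have h1 := hn0 n (by omega) (G ^ n) (pow_le_pow_left₀ (by linarith) (by rw [hG]; exact le_max_left _ _) n) le_rfl
      (Fin.cons (-a) v) (fun h0 => hv (by
        funext i
        have := congrFun h0 i.succ
        rw [Fin.cons_succ] at this
        exact this)) (fun i => by
        refine Fin.cases ?_ (fun i => ?_) i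
        · rw [Fin.cons_zero]
          push_cast
          rw [abs_neg]
          exact haA.trans (pow_le_pow_left₀ (by linarith) (by rw [hG]; exact le_max_right _ _) n)
        · rw [Fin.cons_succ]
          exact (hvA i).trans (pow_le_pow_left₀ (by norm_num) (by
            rw [hG]
            exact le_trans (by linarith) (le_max_right _ _)) n))
    rw [Fin.sum_univ_succ] at h1
    simp only [Fin.cons_zero, Fin.cons_succ] at h1
    have h2 : (θ 0 * li (args n (w 0))).re = 1 := by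
      rw [hθ0, hw0, args, List.map_nil, li]
      simp
    rw [h2] at h1
    have h3 : 1 / ((G ^ n) ^ k * 2 ^ n) = (B ^ n)⁻¹ := by
      rw [hBE, mul_pow, one_div, ← pow_mul, ← pow_mul, mul_comm n k]
    rw [h3] at h1
    refine lt_of_lt_of_eq h1 ?_
    congr 1
    push_cast
    ring

end Pool.Agent.Results.MP_528be1_nt.PairsFromDenseSets
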