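import Pool.Agent.Q217.CD.Level5

/-!
# Superadditivity of the dimensions of cyclotomic multiple zeta values and multiple Clausen values

Let `K` be a field with an embedding in `ℂ` (for example `ℚ` or the field of the algebraic numbers),
`Z K N w` the `K`-span of the cyclotomic multiple zeta values of level `N` and weight `w` (for `K = ℚ` the
space `Z_w(N)` of the problem; `N = 2`: alternating multiple zeta values) and `C K w` the `K`-span of the
multiple Clausen values of weight `w`. Let `X w` be `Z K N w`, `N ≥ 2`, or let it be `C K w`.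

1. `dim X (m + n) ≥ dim X m + dim X n - 1`, unless `X m` and `X n` both contain two elements whose quotient is
   algebraic over `K` but not in `K`. If this does not happen for `X k`, then the inequality can be iterated, and
   `dim X n ≥ ⌊n / k⌋ (dim X k - 1) + 1`. Moreover `dim X n ≤ dim X (n + 1)`.
2. Over the field of the algebraic numbers there is no exception; the dimension over it is at most that over `ℚ`.
3. Unconditionally `dim Z_{n+q}(N) ≥ dim Z_n(N) + q (dim Z_1(N) - 1)` (`K = ℚ`), so `dim Z_w(6) ≥ 2 w + 1`;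
   `dim Z_{n+2}(2) ≥ dim Z_n(2) + 1`.

The proof uses a linear analogue of the theorem of Cauchy and Davenport, the stuffle and the shuffle product and
Baker's theorem on logarithms.
-/

set_option autoImplicit false

open Module Filter

namespace Pool.Agent.Results.MP_528be1_nt.Superadditivity

/-- the truncated sums `∑_{L ≥ l_1 > ⋯ > l_n > 0} ∏ z_j^(l_j) / l_j^(a_j)` of the list of the pairs
`(a_j, z_j)` -/
noncomputable def tr : List (ℕ × ℂ) → ℕ → ℂ
  | [], _ => 1
  | (p :: s), L => ∑ l ∈ Finset.range L, p.2 ^ (l + 1) / ((l + 1 : ℕ) : ℂ) ^ p.1 * tr s l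

/-- the multiple polylogarithm `Li_{a_1, …, a_n}(z_1, …, z_n)`, the limit of the truncated sums -/
noncomputable def Li (s : List (ℕ × ℂ)) : ℂ := limUnder atTop (tr s)

/-- the `K`-span of the cyclotomic multiple zeta values of level `N` and weight `w` -/
noncomputable def Z (K : Type*) [Field K] [Algebra K ℂ] (N w : ℕ) : Submodule K ℂ :=
  Submodule.span K {x | ∃ s : List (ℕ × ℂ), s ≠ [] ∧ (∀ p ∈ s, 1 ≤ p.1 ∧ p.2 ^ N = 1) ∧
    (∀ p t, s = p :: t → p ≠ (1, 1)) ∧ (s.map Prod.fst).sum = w ∧ x = Li s}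

/-- `e^(πi/3)` -/
noncomputable def om : ℂ := Complex.exp (Real.pi * Complex.I / 3)

/-- the `K`-span of the multiple Clausen values `Li_{a_1, …, a_n}(ω, 1, …, 1)` of weight `w` -/
noncomputable def C (K : Type*) [Field K] [Algebra K ℂ] (w : ℕ) : Submodule K ℂ :=
  Submodule.span K {x | ∃ (a : ℕ) (s : List ℕ), (∀ b ∈ a :: s, 1 ≤ b) ∧ (a :: s).sum = w ∧
    x = Li ((a, om) :: s.map (fun b => (b, 1)))}

/-- `W` contains two elements whose quotient is algebraic over `K`, but not in `K` -/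
def Exceptional (K : Type*) [Field K] [Algebra K ℂ] (W : Submodule K ℂ) : Prop :=
  ∃ x ∈ W, ∃ y ∈ W, y ≠ 0 ∧ IsAlgebraic K (x / y) ∧ x / y ∉ Set.range (algebraMap K ℂ)

/-- the field of the algebraic numbers -/
abbrev QBar : Type := algebraicClosure ℚ ℂ

theorem tr_eq (s : List (ℕ × ℂ)) : tr s = Q217.CD.Lev.tr s := by
  induction s with
  | nil => funext L; rw [tr, Q217.CD.Lev.tr]
  | cons p s ih =>
    funext L
    rw [tr, Q217.CD.Lev.tr, ih]

theorem Li_eq (s : List (ℕ × ℂ)) : Li s = Q217.CD.Lev.Li s := by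
  rw [Li, Q217.CD.Lev.Li, tr_eq]

theorem Z_eq (K : Type*) [Field K] [Algebra K ℂ] (N w : ℕ) :
    Z K N w = Submodule.span K (Q217.CD.Lev.ZS N w) := by
  unfold Z Q217.CD.Lev.ZS Q217.CD.Lev.Ix
  simp only [Li_eq, and_assoc]

theorem C_eq (K : Type*) [Field K] [Algebra K ℂ] (w : ℕ) :
    C K w = Submodule.span K (Q217.CD.Lev.CS w) := by
  unfold C Q217.CD.Lev.CS
  simp only [Li_eq]
  rfl

open Q217.CD.Lev in
theorem general (K : Type*) [Field K] [Algebra K ℂ] (X : ℕ → Submodule K ℂ)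
    (hf : ∀ w, FiniteDimensional K (X w)) (hm : ∀ m n, X m * X n ≤ X (m + n)) (h1 : X 1 ≠ ⊥) :
    (∀ w, FiniteDimensional K (X w)) ∧
      (∀ m n, 1 ≤ m → 1 ≤ n → finrank K (X m) + finrank K (X n) ≤ finrank K (X (m + n)) + 1 ∨
        (Exceptional K (X m) ∧ Exceptional K (X n))) ∧
      (∀ k, 1 ≤ k → Exceptional K (X k) ∨ ∀ n, 1 ≤ n →
        (∀ q, finrank K (X n) + q * finrank K (X k) ≤ finrank K (X (q * k + n)) + q) ∧
        n / k * (finrank K (X k) - 1) + 1 ≤ finrank K (X n)) ∧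
      (∀ n, finrank K (X n) ≤ finrank K (X (n + 1))) := by
  refine ⟨hf, fun m n hm1 hn1 => fam_sup' hf hm h1 m n hm1 hn1, fun k hk => ?_, fam_mono hf hm h1⟩
  by_cases h : Exceptional K (X k)
  · exact Or.inl h
  · exact Or.inr fun n hn => ⟨fam_iter hf hm h1 k hk h n hn, fam_lin hf hm h1 k hk h n hn⟩

open Q217.CD.Lev in
theorem result :
    (∀ (K : Type) [Field K] [Algebra K ℂ] (X : ℕ → Submodule K ℂ),
      ((∃ N, 2 ≤ N ∧ X = Z K N) ∨ X = C K) →
      (∀ w, FiniteDimensional K (X w)) ∧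
      (∀ m n, 1 ≤ m → 1 ≤ n → finrank K (X m) + finrank K (X n) ≤ finrank K (X (m + n)) + 1 ∨
        (Exceptional K (X m) ∧ Exceptional K (X n))) ∧
      (∀ k, 1 ≤ k → Exceptional K (X k) ∨ ∀ n, 1 ≤ n →
        (∀ q, finrank K (X n) + q * finrank K (X k) ≤ finrank K (X (q * k + n)) + q) ∧
        n / k * (finrank K (X k) - 1) + 1 ≤ finrank K (X n)) ∧
      (∀ n, finrank K (X n) ≤ finrank K (X (n + 1)))) ∧
    (∀ W : Submodule QBar ℂ, ¬ Exceptional QBar W) ∧
    (∀ w, finrank QBar (C QBar w) ≤ finrank ℚ (C ℚ w) ∧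
      ∀ N, 1 ≤ N → finrank QBar (Z QBar N w) ≤ finrank ℚ (Z ℚ N w)) ∧
    (∀ N n q, 2 ≤ N → 1 ≤ n →
      finrank ℚ (Z ℚ N n) + q * (finrank ℚ (Z ℚ N 1) - 1) ≤ finrank ℚ (Z ℚ N (n + q))) ∧
    (∀ w, 1 ≤ w → 2 * w + 1 ≤ finrank ℚ (Z ℚ 6 w)) ∧
    (∀ n, 1 ≤ n → finrank ℚ (Z ℚ 2 n) + 1 ≤ finrank ℚ (Z ℚ 2 (n + 2))) := by
  have hZf : ∀ (K : Type) [Field K] [Algebra K ℂ] (N : ℕ), N ≠ 0 → ∀ w,
      FiniteDimensional K (Submodule.span K (ZS N w)) := fun K _ _ N hN w =>
    FiniteDimensional.span_of_finite K (ZS_finite N w hN)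
  have hlev : ∀ N n q, 2 ≤ N → 1 ≤ n →
      finrank ℚ (Z ℚ N n) + q * (finrank ℚ (Z ℚ N 1) - 1) ≤ finrank ℚ (Z ℚ N (n + q)) := by
    intro N n q hN hn
    rw [Z_eq, Z_eq, Z_eq]
    have hN0 : N ≠ 0 := by omega
    have h := fam_iter (X := fun w => Submodule.span ℚ (ZS N w)) (hZf ℚ N hN0)
      (fun m n => ZS_mul ℚ N m n hN0) (ZS_ne ℚ N hN) 1 le_rfl
      (not_hasAlg fun x hx => ZS_one_alg hN0 x hx) n hn q
    have hd : 1 ≤ finrank ℚ (Submodule.span ℚ (ZS N 1)) := by
      have := hZf ℚ N hN0 1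
      exact Submodule.one_le_finrank_iff.2 (ZS_ne ℚ N hN)
    rw [mul_one, add_comm q n] at h
    obtain ⟨d, hd⟩ := Nat.exists_eq_add_of_le' hd
    rw [hd] at h ⊢
    rw [Nat.add_sub_cancel]
    nlinarith
  refine ⟨?_, ?_, ?_, hlev, ?_, ?_⟩
  · rintro K _ _ X (⟨N, hN, rfl⟩ | rfl)
    · have hN0 : N ≠ 0 := by omega
      have e : Z K N = fun w => Submodule.span K (ZS N w) := funext fun w => Z_eq K N w
      rw [e]
      exact general K _ (hZf K N hN0) (fun m n => ZS_mul K N m n hN0) (ZS_ne K N hN)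
    · have e : C K = fun w => Submodule.span K (CS w) := funext fun w => C_eq K w
      rw [e]
      exact general K _ (fun w => FiniteDimensional.span_of_finite K (CS_finite w)) (fun m n => CS_mul K m n)
        (CS_ne K)
  · rintro W ⟨x, _, y, _, _, h1, h2⟩
    apply h2
    have h3 : IsAlgebraic ℚ (x / y) := by
      have : Algebra.IsAlgebraic ℚ QBar := algebraicClosure.isAlgebraic ℚ ℂ
      exact h1.restrictScalars ℚ
    exact ⟨⟨x / y, mem_algebraicClosure_iff.2 h3⟩, rfl⟩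
  · intro w
    refine ⟨?_, fun N hN => ?_⟩
    · rw [C_eq, C_eq]
      exact finrank_le_rat QBar _ (CS_finite w)
    · rw [Z_eq, Z_eq]
      exact finrank_le_rat QBar _ (ZS_finite N w (by omega))
  · intro w hw
    obtain ⟨v, rfl⟩ := Nat.exists_eq_add_of_le hw
    have h1 := hlev 6 1 v (by norm_num) le_rfl
    have h2 := level_six
    rw [← Z_eq] at h2
    obtain ⟨d, hd⟩ := Nat.exists_eq_add_of_le h2
    rw [hd] at h1
    have h3 : 3 + d - 1 = d + 2 := by omega
    rw [h3] at h1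
    nlinarith
  · intro n hn
    rw [Z_eq, Z_eq]
    exact level_two n hn

end Pool.Agent.Results.MP_528be1_nt.Superadditivity
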